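import Pool.Agent.H31.MP.Basic

/-!
MP_76b9e7_nt: module CM (board mtp_modules): comparison of the main terms.
-/

set_option autoImplicit false

open Finset Real ArithmeticFunction
open scoped Nat ArithmeticFunction.Moebius

namespace Pool.Agent.H67.MTP

open Pool.Agent.H31.MP
open Pool.Agent.H30.BV (NX wx WX SC Sf)

theorem nu_le {K : ℕ} (h : Fin K → ℕ) (p : ℕ) : nu h p ≤ p := by
  unfold nu
  refine (Finset.card_filter_le _ _).trans ?_
  rw [Finset.card_range]

theorem V1_nonneg {K : ℕ} (y₀ : ℕ) (z : ℝ) (h : Fin K → ℕ) : 0 ≤ V1 y₀ z h := by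
  unfold V1
  refine Finset.prod_nonneg fun p _ => ?_
  have h1 : (nu h p : ℝ) ≤ p := by exact_mod_cast nu_le h p
  have h2 : (nu h p : ℝ) / p ≤ 1 := div_le_one_of_le₀ h1 (Nat.cast_nonneg _)
  linarith

theorem V2_nonneg {K : ℕ} (y₀ : ℕ) (z : ℝ) (h : Fin K → ℕ) : 0 ≤ V2 y₀ z h := by
  unfold V2
  refine Finset.prod_nonneg fun p hp => ?_
  unfold Pz at hp
  rw [Finset.mem_filter] at hp
  have h0 : (2 : ℝ) ≤ p := by exact_mod_cast hp.2.1.two_le
  have h1 : (nu h p : ℝ) ≤ p := by exact_mod_cast nu_le h p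
  have h2 : ((nu h p : ℝ) - 1) / ((p : ℝ) - 1) ≤ 1 :=
    div_le_one_of_le₀ (by linarith) (by linarith)
  linarith

theorem pf_CM (hVV : T_VV) (hMR : T_MR) (hWM : Pool.Agent.H30.BV.T_WM) (hDG : T_DG) : T_CM := by
  obtain ⟨c1, C, hc1, hC, hMe⟩ := hMR
  obtain ⟨c, X₀, hc, hW⟩ := hWM
  refine ⟨c / (8 * C), max X₀ 2, by positivity, ?_⟩
  intro Z hZ k y₀ δ Y M l h hk hky hyz hδ hδ1 hM hQ
  have hZX : X₀ ≤ Z := (le_max_left _ _).trans hZ
  have hZ2 : 2 ≤ Z := (le_max_right _ _).trans hZ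
  have hZ0 : 0 < Z := by linarith
  have hlogZ : 0 < Real.log Z := Real.log_pos (by linarith)
  set z : ℝ := Z ^ δ with hz
  have hy4 : (4 : ℝ) ≤ y₀ := by
    have : 4 ≤ y₀ := by omega
    exact_mod_cast this
  have hz4 : 4 ≤ z := hy4.trans hyz
  have hlogz : Real.log z = δ * Real.log Z := by rw [hz, Real.log_rpow hZ0]
  have hlogz0 : 0 < Real.log z := Real.log_pos (by linarith)
  obtain ⟨hM1, hM2⟩ := hMe z (by linarith)
  have hMe0 : 0 < Me z := lt_of_lt_of_le (by positivity) hM1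
  obtain ⟨-, hV⟩ := hVV k y₀ z h hk hky hyz
  have hWX := (hW Z hZX).1
  have hQF0 : 0 ≤ QF z Y l := by
    rw [hDG]
    refine Finset.sum_nonneg fun r _ => mul_nonneg ?_ (sq_nonneg _)
    exact Finset.prod_nonneg fun i _ => Nat.cast_nonneg _
  set W : ℝ := (primorial y₀ : ℝ) with hWd
  set φW : ℝ := ((primorial y₀).totient : ℝ) with hφd
  have hW0 : 0 < W := by
    rw [hWd]; exact_mod_cast primorial_pos y₀
  have hφ0 : 0 < φW := by
    rw [hφd]; exact_mod_cast Nat.totient_pos.2 (primorial_pos y₀)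
  have hV1 := V1_nonneg y₀ z h
  have hV2 := V2_nonneg y₀ z h
  set v1 := V1 y₀ z h with hv1
  set v2 := V2 y₀ z h with hv2
  set q := QF z Y l with hq
  -- lower bound of V2
  have h1 : v1 * (φW / W) * Real.log z / C ≤ v2 := by
    have h2 : Me z * Real.log z ≤ C := by
      rwa [le_div_iff₀ hlogz0] at hM2
    rw [div_le_iff₀ hC, ← hV]
    have h3 := mul_le_mul_of_nonneg_left h2 hV2
    linarith
  have hNX : (NX Z : ℝ) ≤ 4 * Z := by
    unfold NX
    have := Nat.ceil_lt_add_one (show (0 : ℝ) ≤ 3 * Z by positivity)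
    linarith
  have hsumMM : ∑ i, MM Z y₀ z Y l h i =
      WX Z / (φW * Real.log Z) * v2 * ∑ i, QF z Y (res i l) := by
    rw [Finset.mul_sum]
    rfl
  have htn : tn Z y₀ z Y l h = 2 * (NX Z / W * v1 * q) := rfl
  rw [hsumMM, htn]
  have hWX0 : 0 ≤ WX Z := le_trans (by positivity) hWX
  have h4 : WX Z / (φW * Real.log Z) * v2 * (M / δ * q) ≤
      WX Z / (φW * Real.log Z) * v2 * ∑ i, QF z Y (res i l) :=
    mul_le_mul_of_nonneg_left hQ (by positivity)
  refine le_trans ?_ h4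
  have h5 : c * Z / (φW * Real.log Z) * (v1 * (φW / W) * Real.log z / C) * (M / δ * q) ≤
      WX Z / (φW * Real.log Z) * v2 * (M / δ * q) := by
    refine mul_le_mul_of_nonneg_right ?_ (by positivity)
    exact mul_le_mul (div_le_div_of_nonneg_right hWX (by positivity)) h1 (by positivity)
      (by positivity)
  refine le_trans ?_ h5
  have h6 : c * Z / (φW * Real.log Z) * (v1 * (φW / W) * Real.log z / C) * (M / δ * q) =
      (c / C) * (Z / W) * v1 * M * q := by
    rw [hlogz]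
    field_simp
  rw [h6]
  have h7 : c / (8 * C) * M * (2 * (NX Z / W * v1 * q)) =
      (c / C) * (NX Z / (4 * W)) * v1 * M * q := by
    field_simp
    ring
  rw [h7]
  have h8 : (NX Z : ℝ) / (4 * W) ≤ Z / W := by
    rw [div_le_div_iff₀ (by positivity) hW0]
    nlinarith
  have h9 : (c / C) * (NX Z / (4 * W)) ≤ (c / C) * (Z / W) :=
    mul_le_mul_of_nonneg_left h8 (by positivity)
  have h10 : (c / C) * (NX Z / (4 * W)) * v1 ≤ (c / C) * (Z / W) * v1 :=
    mul_le_mul_of_nonneg_right h9 hV1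
  have h11 := mul_le_mul_of_nonneg_right h10 hM
  exact mul_le_mul_of_nonneg_right h11 hQF0

end Pool.Agent.H67.MTP
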