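import Pool.Agent.H31.MP.Basic

/-!
MP_76b9e7_nt: module LB (board mtp_modules): the size of the weights.
-/

set_option autoImplicit false

open Finset Real ArithmeticFunction
open scoped Nat ArithmeticFunction.Moebius

namespace Pool.Agent.H67.MTP

open Pool.Agent.H31.MP

open Classical in
theorem mem_RS {z Y : ℝ} {a : ℕ} : a ∈ RS z Y ↔ (1 ≤ a ∧ a ≤ ⌊Y⌋₊) ∧ Rgh z a := by
  unfold RS
  rw [Finset.mem_filter, Finset.mem_Icc]

theorem RS_dvd {z Y : ℝ} {a b : ℕ} (ha : a ∈ RS z Y) (hb : b ∣ a) : b ∈ RS z Y := by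
  rw [mem_RS] at ha ⊢
  have h0 : 0 < a := ha.1.1
  exact ⟨⟨Nat.pos_of_dvd_of_pos hb h0, (Nat.le_of_dvd h0 hb).trans ha.1.2⟩,
    ha.2.1.squarefree_of_dvd hb, fun p hp hpb => ha.2.2 p hp (hpb.trans hb)⟩

theorem RS_mono {z Y X : ℝ} (h : Y ≤ X) : RS z Y ⊆ RS z X := by
  intro a ha
  rw [mem_RS] at ha ⊢
  exact ⟨⟨ha.1.1, ha.1.2.trans (Nat.floor_le_floor h)⟩, ha.2⟩

theorem tot_split {a d : ℕ} (ha : Squarefree a) (hd : d ∣ a) :
    a.totient = d.totient * (a / d).totient := by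
  obtain ⟨b, rfl⟩ := hd
  have h0 : 0 < d := by
    rcases Nat.eq_zero_or_pos d with h | h
    · subst h; rw [zero_mul] at ha; exact absurd ha not_squarefree_zero
    · exact h
  rw [Nat.mul_div_cancel_left _ h0]
  exact Nat.totient_mul (Nat.coprime_of_squarefree_mul ha)

theorem tot_dvd_sum (z Y : ℝ) (d : ℕ) (hd : 0 < d) :
    ∑ a ∈ (RS z Y).filter (fun a => d ∣ a), 1 / (a.totient : ℝ) ≤
      1 / (d.totient : ℝ) * ∑ a ∈ RS z Y, 1 / (a.totient : ℝ) := by
  have h1 : ∀ a ∈ (RS z Y).filter (fun a => d ∣ a), 1 / (a.totient : ℝ) =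
      1 / (d.totient : ℝ) * (1 / ((a / d).totient : ℝ)) := by
    intro a ha
    rw [Finset.mem_filter] at ha
    rw [tot_split (mem_RS.1 ha.1).2.1 ha.2]
    push_cast
    rw [one_div_mul_one_div]
  rw [Finset.sum_congr rfl h1, ← Finset.mul_sum]
  refine mul_le_mul_of_nonneg_left ?_ (by positivity)
  rw [← Finset.sum_image (f := fun b : ℕ => 1 / (b.totient : ℝ)) (g := fun a => a / d)
    (s := (RS z Y).filter (fun a => d ∣ a))]
  · refine Finset.sum_le_sum_of_subset_of_nonneg ?_ fun _ _ _ => by positivity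
    intro b hb
    obtain ⟨a, ha, rfl⟩ := Finset.mem_image.1 hb
    rw [Finset.mem_filter] at ha
    exact RS_dvd ha.1 (Nat.div_dvd_of_dvd ha.2)
  · intro a ha a' ha' h
    have ha2 := (Finset.mem_filter.1 (Finset.mem_coe.1 ha)).2
    have ha2' := (Finset.mem_filter.1 (Finset.mem_coe.1 ha')).2
    simp only at h
    rw [← Nat.div_mul_cancel ha2, ← Nat.div_mul_cancel ha2', h]

open Classical in
theorem pf_LB (hQO : T_QO) : T_LB := by
  intro K δ hδ
  obtain ⟨C0, hC0, hQ⟩ := hQO δ hδ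
  refine ⟨(C0 * C0) ^ K, by positivity, ?_⟩
  intro X Y y hX hYX hy hyY
  obtain ⟨-, -, hphi, hsum⟩ := hQ X hX
  set z : ℝ := X ^ δ with hz
  have hex : ∀ d, lw z Y y d ≠ 0 → ∃ r ∈ Bx K z Y, (∀ i, d i ∣ r i) ∧ y r ≠ 0 := by
    intro d hd
    by_contra hcon
    push Not at hcon
    apply hd
    unfold lw
    rw [Finset.sum_eq_zero, mul_zero]
    intro r hr
    split_ifs with h
    · rw [hcon r hr h, zero_div]
    · rfl
  have hBx : ∀ d, lw z Y y d ≠ 0 → d ∈ Bx K z Y ∧ ((∏ i, d i : ℕ) : ℝ) ≤ Y := by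
    intro d hd
    obtain ⟨r, hr, hdr, hyr⟩ := hex d hd
    unfold Bx at hr ⊢
    rw [Fintype.mem_piFinset] at hr ⊢
    refine ⟨fun i => RS_dvd (hr i) (hdr i), ?_⟩
    refine le_trans ?_ (hyY r hyr)
    exact_mod_cast Finset.prod_le_prod' fun i _ =>
      Nat.le_of_dvd (mem_RS.1 (hr i)).1.1 (hdr i)
  refine ⟨hBx, ?_⟩
  intro d
  by_cases hd0 : lw z Y y d = 0
  · rw [hd0, abs_zero]; positivity
  have hd := (hBx d hd0).1
  unfold Bx at hd
  rw [Fintype.mem_piFinset] at hd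
  unfold lw
  rw [abs_mul, Finset.abs_prod]
  have h1 : ∏ i, |((μ (d i) : ℤ) : ℝ) * (d i : ℝ)| ≤ ∏ i, (d i : ℝ) := by
    refine Finset.prod_le_prod (fun i _ => abs_nonneg _) fun i _ => ?_
    rw [abs_mul, Nat.abs_cast]
    have h2 : |((μ (d i) : ℤ) : ℝ)| ≤ 1 := by exact_mod_cast ArithmeticFunction.abs_moebius_le_one
    exact mul_le_of_le_one_left (Nat.cast_nonneg _) h2
  have h2 : |∑ r ∈ Bx K z Y, (if ∀ i, d i ∣ r i then y r / ∏ i, ((r i).totient : ℝ) else 0)| ≤
      ∏ i, ∑ a ∈ (RS z Y).filter (fun a => d i ∣ a), 1 / (a.totient : ℝ) := by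
    rw [Finset.prod_univ_sum]
    refine (Finset.abs_sum_le_sum_abs _ _).trans ?_
    have h3 : Fintype.piFinset (fun i => (RS z Y).filter (fun a => d i ∣ a)) =
        (Bx K z Y).filter (fun r => ∀ i, d i ∣ r i) := by
      ext r
      unfold Bx
      rw [Finset.mem_filter, Fintype.mem_piFinset, Fintype.mem_piFinset]
      simp only [Finset.mem_filter, forall_and]
    rw [h3, Finset.sum_filter]
    refine Finset.sum_le_sum fun r _ => ?_
    split_ifs with h
    · rw [abs_div, Finset.prod_div_distrib, Finset.prod_const_one]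
      rw [abs_of_nonneg (a := ∏ i, ((r i).totient : ℝ))
        (Finset.prod_nonneg fun i _ => Nat.cast_nonneg _)]
      exact div_le_div_of_nonneg_right (hy r) (Finset.prod_nonneg fun i _ => Nat.cast_nonneg _)
    · rw [abs_zero]
  refine (mul_le_mul h1 h2 (abs_nonneg _) (Finset.prod_nonneg fun i _ => Nat.cast_nonneg _)).trans ?_
  rw [← Finset.prod_mul_distrib]
  have h4 : (C0 * C0) ^ K = ∏ _i : Fin K, (C0 * C0) := by
    rw [Finset.prod_const, Finset.card_univ, Fintype.card_fin]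
  rw [h4]
  refine Finset.prod_le_prod (fun i _ => ?_) fun i _ => ?_
  · exact mul_nonneg (Nat.cast_nonneg _) (Finset.sum_nonneg fun _ _ => by positivity)
  · have hdi := hd i
    have hdi0 : 0 < d i := (mem_RS.1 hdi).1.1
    have hphi0 : (0 : ℝ) < ((d i).totient : ℝ) := by
      exact_mod_cast Nat.totient_pos.2 hdi0
    have h5 := tot_dvd_sum z Y (d i) hdi0
    have h6 : ∑ a ∈ RS z Y, 1 / (a.totient : ℝ) ≤ C0 :=
      (Finset.sum_le_sum_of_subset_of_nonneg (RS_mono hYX) fun _ _ _ => by positivity).trans hsum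
    have h7 := hphi (d i) (RS_mono hYX hdi)
    calc (d i : ℝ) * ∑ a ∈ (RS z Y).filter (fun a => d i ∣ a), 1 / (a.totient : ℝ)
        ≤ (d i : ℝ) * (1 / ((d i).totient : ℝ) * C0) :=
          mul_le_mul_of_nonneg_left (h5.trans (mul_le_mul_of_nonneg_left h6 (by positivity)))
            (Nat.cast_nonneg _)
      _ = ((d i : ℝ) / (d i).totient) * C0 := by ring
      _ ≤ C0 * C0 := by
          refine mul_le_mul_of_nonneg_right ?_ hC0.le
          rw [div_le_iff₀ hphi0]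
          exact h7

end Pool.Agent.H67.MTP
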