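import Pool.Agent.H67.MTP.LB

/-!
MP_76b9e7_nt: module RH (board mtp_modules): the weights of Selberg in one variable.
-/

set_option autoImplicit false

open Finset Real ArithmeticFunction
open scoped Nat ArithmeticFunction.Moebius ArithmeticFunction.zeta

namespace Pool.Agent.H67.MTP

open Pool.Agent.H31.MP

theorem sum_mu (t : ℕ) (ht : 0 < t) : ∑ v ∈ t.divisors, μ v = if t = 1 then 1 else 0 := by
  have h := congrArg (fun f : ArithmeticFunction ℤ => f t) coe_zeta_mul_moebius
  simp only [ArithmeticFunction.coe_zeta_mul_apply, ArithmeticFunction.one_apply] at h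
  exact h

/-- Möbius inversion between two levels -/
theorem mob (r s : ℕ) (hs : Squarefree s) (hr : r ∣ s) :
    ∑ u ∈ s.divisors.filter (fun u => r ∣ u), μ u = if r = s then μ r else 0 := by
  have hs0 : s ≠ 0 := hs.ne_zero
  obtain ⟨t, rfl⟩ := hr
  have hr0 : r ≠ 0 := left_ne_zero_of_mul hs0
  have ht0 : t ≠ 0 := right_ne_zero_of_mul hs0
  have hco : r.Coprime t := Nat.coprime_of_squarefree_mul hs
  have h1 : (r * t).divisors.filter (fun u => r ∣ u) = t.divisors.image (fun v => r * v) := by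
    ext u
    rw [Finset.mem_filter, Nat.mem_divisors, Finset.mem_image]
    constructor
    · rintro ⟨⟨h1, _⟩, v, rfl⟩
      exact ⟨v, Nat.mem_divisors.2 ⟨Nat.dvd_of_mul_dvd_mul_left (Nat.pos_of_ne_zero hr0) h1, ht0⟩,
        rfl⟩
    · rintro ⟨v, hv, rfl⟩
      exact ⟨⟨Nat.mul_dvd_mul_left r (Nat.dvd_of_mem_divisors hv), hs0⟩, dvd_mul_right _ _⟩
  rw [h1, Finset.sum_image (fun a _ b _ h => Nat.eq_of_mul_eq_mul_left (Nat.pos_of_ne_zero hr0) h)]
  have h2 : ∀ v ∈ t.divisors, μ (r * v) = μ r * μ v := by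
    intro v hv
    exact isMultiplicative_moebius.map_mul_of_coprime
      (hco.coprime_dvd_right (Nat.dvd_of_mem_divisors hv))
  rw [Finset.sum_congr rfl h2, ← Finset.mul_sum, sum_mu t (Nat.pos_of_ne_zero ht0)]
  by_cases h : t = 1
  · subst h; simp
  · rw [if_neg h, mul_zero, if_neg]
    intro h3
    apply h
    exact Nat.eq_of_mul_eq_mul_left (Nat.pos_of_ne_zero hr0) (by rw [← h3, mul_one])

theorem sum_inv_tot (u : ℕ) (hu : Squarefree u) :
    ∑ e ∈ u.divisors, 1 / (e.totient : ℝ) = (u : ℝ) / u.totient := by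
  have hu0 : u ≠ 0 := hu.ne_zero
  have hphi : (0 : ℝ) < (u.totient : ℝ) := by
    exact_mod_cast Nat.totient_pos.2 (Nat.pos_of_ne_zero hu0)
  rw [eq_div_iff hphi.ne', Finset.sum_mul]
  have h1 : ∀ e ∈ u.divisors, 1 / (e.totient : ℝ) * (u.totient : ℝ) = ((u / e).totient : ℝ) := by
    intro e he
    have hed := Nat.dvd_of_mem_divisors he
    have he0 : (0 : ℝ) < (e.totient : ℝ) := by
      exact_mod_cast Nat.totient_pos.2 (Nat.pos_of_mem_divisors he)
    rw [tot_split hu hed]
    push_cast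
    field_simp
  rw [Finset.sum_congr rfl h1]
  have h2 : ∑ e ∈ u.divisors, (u / e).totient = u := by
    rw [Nat.sum_div_divisors u Nat.totient, Nat.sum_totient]
  exact_mod_cast h2

theorem sum_tot_gcd (u v : ℕ) (hu : 0 < u) (S : Finset ℕ) (hS : ∀ r, r ∣ u → r ∈ S) :
    ∑ r ∈ S, (if r ∣ u ∧ r ∣ v then (r.totient : ℝ) else 0) = (Nat.gcd u v : ℝ) := by
  have h1 : ∑ r ∈ S, (if r ∣ u ∧ r ∣ v then (r.totient : ℝ) else 0) =
      ∑ r ∈ (Nat.gcd u v).divisors, (r.totient : ℝ) := by
    rw [← Finset.sum_filter]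
    refine Finset.sum_congr ?_ fun _ _ => rfl
    ext r
    rw [Finset.mem_filter, Nat.mem_divisors, Nat.dvd_gcd_iff]
    constructor
    · rintro ⟨_, h⟩
      exact ⟨h, (Nat.gcd_pos_of_pos_left _ hu).ne'⟩
    · rintro ⟨h, _⟩
      exact ⟨hS r h.1, h⟩
  rw [h1]
  have := Nat.sum_totient (Nat.gcd u v)
  exact_mod_cast this

theorem pf_RH (hGL : T_GL) : T_RH := by
  classical
  intro z D hz hD
  set R := RS z D with hR
  set G : ℝ := ∑ r ∈ R, 1 / (r.totient : ℝ) with hG
  have h1R : 1 ∈ R := by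
    rw [hR, mem_RS]
    refine ⟨⟨le_rfl, Nat.le_floor (by simpa using hD.le)⟩, squarefree_one, ?_⟩
    intro p hp hp1
    exact absurd (Nat.dvd_one.1 hp1) hp.one_lt.ne'
  have hGpos : 0 < G := by
    refine Finset.sum_pos' (fun _ _ => by positivity) ⟨1, h1R, by simp⟩
  have hpos : ∀ r ∈ R, 0 < r := fun r hr => (mem_RS.1 hr).1.1
  have hsq : ∀ r ∈ R, Squarefree r := fun r hr => (mem_RS.1 hr).2.1
  have hdvd : ∀ r ∈ R, ∀ s, s ∣ r → s ∈ R := fun r hr s hs => RS_dvd hr hs
  have htot : ∀ r ∈ R, (0 : ℝ) < (r.totient : ℝ) := fun r hr => by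
    exact_mod_cast Nat.totient_pos.2 (hpos r hr)
  set T : ℕ → ℝ := fun u => ∑ r ∈ R.filter (fun r => u ∣ r), 1 / (r.totient : ℝ) with hT
  have hT0 : ∀ u, 0 ≤ T u := fun u => Finset.sum_nonneg fun _ _ => by positivity
  set ρ : ℕ → ℝ := fun u => if u ∈ R then ((μ u : ℤ) : ℝ) * u / G * T u else 0 with hρ
  have hρR : ∀ u ∈ R, ρ u = ((μ u : ℤ) : ℝ) * u / G * T u := fun u hu => by
    simp only [hρ, if_pos hu]
  -- the key bound
  have hkey : ∀ u ∈ R, (u : ℝ) * T u ≤ G := by
    intro u hu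
    set B : Finset ℕ := (R.filter (fun r => u ∣ r)).image (fun r => r / u) with hB
    have hBmem : ∀ b ∈ B, u * b ∈ R := by
      intro b hb
      obtain ⟨r, hr, rfl⟩ := Finset.mem_image.1 hb
      rw [Finset.mem_filter] at hr
      rw [Nat.mul_div_cancel' hr.2]
      exact hr.1
    have hTu : T u = 1 / (u.totient : ℝ) * ∑ b ∈ B, 1 / (b.totient : ℝ) := by
      rw [hB, Finset.sum_image, Finset.mul_sum]
      · refine Finset.sum_congr rfl fun r hr => ?_
        rw [Finset.mem_filter] at hr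
        rw [tot_split (hsq r hr.1) hr.2]
        push_cast
        rw [one_div_mul_one_div]
      · intro a ha a' ha' h
        have ha2 := (Finset.mem_filter.1 (Finset.mem_coe.1 ha)).2
        have ha2' := (Finset.mem_filter.1 (Finset.mem_coe.1 ha')).2
        simp only at h
        rw [← Nat.div_mul_cancel ha2, ← Nat.div_mul_cancel ha2', h]
    have hco : ∀ b ∈ B, u.Coprime b := fun b hb =>
      Nat.coprime_of_squarefree_mul (hsq _ (hBmem b hb))
    have hinj : Set.InjOn (fun q : ℕ × ℕ => q.1 * q.2) (u.divisors ×ˢ B : Finset (ℕ × ℕ)) := by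
      rintro ⟨e, b⟩ hq ⟨e', b'⟩ hq' h
      rw [Finset.mem_coe, Finset.mem_product] at hq hq'
      simp only at h hq hq'
      have he := Nat.dvd_of_mem_divisors hq.1
      have he' := Nat.dvd_of_mem_divisors hq'.1
      have g1 : Nat.gcd u (e * b) = e := by
        rw [Nat.Coprime.gcd_mul_right_cancel_right e (hco b hq.2).symm]
        exact Nat.gcd_eq_right he
      have g2 : Nat.gcd u (e' * b') = e' := by
        rw [Nat.Coprime.gcd_mul_right_cancel_right e' (hco b' hq'.2).symm]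
        exact Nat.gcd_eq_right he'
      have h3 : e = e' := by rw [← g1, h, g2]
      subst h3
      have h4 : b = b' := Nat.eq_of_mul_eq_mul_left (Nat.pos_of_mem_divisors hq.1) h
      rw [h4]
    have h2 : ∑ q ∈ u.divisors ×ˢ B, 1 / ((q.1 * q.2).totient : ℝ) ≤ G := by
      rw [← Finset.sum_image (f := fun n : ℕ => 1 / (n.totient : ℝ)) hinj]
      refine Finset.sum_le_sum_of_subset_of_nonneg ?_ fun _ _ _ => by positivity
      intro n hn
      obtain ⟨q, hq, rfl⟩ := Finset.mem_image.1 hn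
      rw [Finset.mem_product] at hq
      exact hdvd _ (hBmem q.2 hq.2) _ (Nat.mul_dvd_mul_right (Nat.dvd_of_mem_divisors hq.1) _)
    have h3 : ∑ q ∈ u.divisors ×ˢ B, 1 / ((q.1 * q.2).totient : ℝ) =
        (∑ e ∈ u.divisors, 1 / (e.totient : ℝ)) * ∑ b ∈ B, 1 / (b.totient : ℝ) := by
      rw [Finset.sum_mul_sum, Finset.sum_product]
      refine Finset.sum_congr rfl fun e he => Finset.sum_congr rfl fun b hb => ?_
      simp only
      rw [Nat.totient_mul ((hco b hb).coprime_dvd_left (Nat.dvd_of_mem_divisors he))]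
      push_cast
      rw [one_div_mul_one_div]
    rw [h3, sum_inv_tot u (hsq u hu)] at h2
    calc (u : ℝ) * T u = (u : ℝ) / u.totient * ∑ b ∈ B, 1 / (b.totient : ℝ) := by
          rw [hTu]; ring
      _ ≤ G := h2
  have hρ1 : ρ 1 = 1 := by
    rw [hρR 1 h1R]
    have : T 1 = G := by
      simp only [hT, hG]
      rw [Finset.filter_true_of_mem fun r _ => one_dvd r]
    rw [this, moebius_apply_one]
    field_simp
    simp
  have hρb : ∀ u, |ρ u| ≤ 1 := by
    intro u
    by_cases hu : u ∈ R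
    · rw [hρR u hu, abs_mul, abs_div, abs_mul, Nat.abs_cast, abs_of_pos hGpos,
        abs_of_nonneg (hT0 u)]
      have h2 : |((μ u : ℤ) : ℝ)| ≤ 1 := by exact_mod_cast ArithmeticFunction.abs_moebius_le_one
      have h3 := hkey u hu
      rw [div_mul_eq_mul_div, div_le_one hGpos]
      calc |((μ u : ℤ) : ℝ)| * (u : ℝ) * T u ≤ 1 * (u : ℝ) * T u := by
            have := hT0 u
            gcongr
        _ = (u : ℝ) * T u := by ring
        _ ≤ G := h3
    · simp only [hρ, if_neg hu, abs_zero]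
      exact zero_le_one
  have hρs : ∀ u, ρ u ≠ 0 → u ∈ R := by
    intro u hu
    by_contra h
    apply hu
    simp only [hρ, if_neg h]
  -- the quadratic form
  have hinv : ∀ r ∈ R, ∑ u ∈ R, (if r ∣ u then ρ u / u else 0) =
      ((μ r : ℤ) : ℝ) / (G * r.totient) := by
    intro r hr
    have e1 : ∀ u ∈ R, (if r ∣ u then ρ u / u else 0) =
        ∑ s ∈ R, (if r ∣ u ∧ u ∣ s then ((μ u : ℤ) : ℝ) * (1 / G * (1 / (s.totient : ℝ))) else 0) := by
      intro u hu
      have hu0 : (0 : ℝ) < u := by exact_mod_cast hpos u hu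
      by_cases h : r ∣ u
      · rw [if_pos h, hρR u hu]
        simp only [h, true_and]
        simp only [hT]
        rw [Finset.sum_filter, Finset.mul_sum, Finset.sum_div]
        refine Finset.sum_congr rfl fun s _ => ?_
        split_ifs
        · field_simp
        · simp
      · rw [if_neg h]
        simp [h]
    rw [Finset.sum_congr rfl e1, Finset.sum_comm]
    have e2 : ∀ s ∈ R, ∑ u ∈ R, (if r ∣ u ∧ u ∣ s then
        ((μ u : ℤ) : ℝ) * (1 / G * (1 / (s.totient : ℝ))) else 0) =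
        if s = r then ((μ r : ℤ) : ℝ) / (G * r.totient) else 0 := by
      intro s hs
      have e3 : ∑ u ∈ R, (if r ∣ u ∧ u ∣ s then
          ((μ u : ℤ) : ℝ) * (1 / G * (1 / (s.totient : ℝ))) else 0) =
          ((∑ u ∈ s.divisors.filter (fun u => r ∣ u), μ u : ℤ) : ℝ) *
            (1 / G * (1 / (s.totient : ℝ))) := by
        rw [← Finset.sum_filter, Int.cast_sum, Finset.sum_mul]
        refine Finset.sum_congr ?_ fun _ _ => rfl
        ext u
        rw [Finset.mem_filter, Finset.mem_filter, Nat.mem_divisors]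
        constructor
        · rintro ⟨_, h1, h2⟩
          exact ⟨⟨h2, (hpos s hs).ne'⟩, h1⟩
        · rintro ⟨⟨h1, _⟩, h2⟩
          exact ⟨hdvd s hs u h1, h2, h1⟩
      rw [e3]
      by_cases h : r ∣ s
      · rw [mob r s (hsq s hs) h]
        by_cases h2 : s = r
        · subst h2
          rw [if_pos rfl, if_pos rfl]
          ring
        · rw [if_neg (Ne.symm h2), if_neg h2]
          simp
      · have h2 : s ≠ r := by rintro rfl; exact h dvd_rfl
        rw [if_neg h2]
        have h3 : s.divisors.filter (fun u => r ∣ u) = ∅ := by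
          rw [Finset.filter_eq_empty_iff]
          intro u hu hru
          exact h (hru.trans (Nat.dvd_of_mem_divisors hu))
        rw [h3]
        simp
    rw [Finset.sum_congr rfl e2, Finset.sum_ite_eq' R r, if_pos hr]
  have hQF : QF1 z D ρ = 1 / G := by
    unfold QF1
    rw [← hR]
    have e1 : ∀ u ∈ R, ∀ v ∈ R, ρ u * ρ v / (Nat.lcm u v : ℝ) =
        ∑ r ∈ R, (r.totient : ℝ) * ((if r ∣ u then ρ u / u else 0) * (if r ∣ v then ρ v / v else 0)) := by
      intro u hu v hv
      have hu0 : (0 : ℝ) < u := by exact_mod_cast hpos u hu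
      have hv0 : (0 : ℝ) < v := by exact_mod_cast hpos v hv
      have e2 : ∀ r ∈ R, (r.totient : ℝ) * ((if r ∣ u then ρ u / u else 0) *
          (if r ∣ v then ρ v / v else 0)) =
          (ρ u / u * (ρ v / v)) * (if r ∣ u ∧ r ∣ v then (r.totient : ℝ) else 0) := by
        intro r _
        by_cases h1 : r ∣ u <;> by_cases h2 : r ∣ v <;> simp [h1, h2]
        ring
      rw [Finset.sum_congr rfl e2, ← Finset.mul_sum,
        sum_tot_gcd u v (hpos u hu) R (fun r hr => hdvd u hu r hr)]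
      have e3 : (Nat.gcd u v : ℝ) * (Nat.lcm u v : ℝ) = u * v := by
        exact_mod_cast Nat.gcd_mul_lcm u v
      have e4 : (0 : ℝ) < (Nat.lcm u v : ℝ) := by
        exact_mod_cast Nat.lcm_pos (hpos u hu) (hpos v hv)
      rw [div_eq_iff e4.ne']
      have e5 : ρ u / u * (ρ v / v) * (Nat.gcd u v : ℝ) * (Nat.lcm u v : ℝ) =
          ρ u * ρ v * ((Nat.gcd u v : ℝ) * (Nat.lcm u v : ℝ)) / (u * v) := by
        field_simp
      rw [e5, e3]
      field_simp
    rw [Finset.sum_congr rfl fun u hu => Finset.sum_congr rfl fun v hv => e1 u hu v hv]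
    have e2 : ∑ u ∈ R, ∑ v ∈ R, ∑ r ∈ R, (r.totient : ℝ) * ((if r ∣ u then ρ u / u else 0) *
        (if r ∣ v then ρ v / v else 0)) =
        ∑ r ∈ R, (r.totient : ℝ) * ((∑ u ∈ R, (if r ∣ u then ρ u / u else 0)) *
          (∑ v ∈ R, (if r ∣ v then ρ v / v else 0))) := by
      have : ∀ u ∈ R, ∑ v ∈ R, ∑ r ∈ R, (r.totient : ℝ) * ((if r ∣ u then ρ u / u else 0) *
        (if r ∣ v then ρ v / v else 0)) = ∑ r ∈ R, ∑ v ∈ R, (r.totient : ℝ) *
        ((if r ∣ u then ρ u / u else 0) * (if r ∣ v then ρ v / v else 0)) :=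
        fun u _ => Finset.sum_comm
      rw [Finset.sum_congr rfl this, Finset.sum_comm]
      refine Finset.sum_congr rfl fun r _ => ?_
      rw [Finset.sum_mul_sum, Finset.mul_sum]
      refine Finset.sum_congr rfl fun u _ => ?_
      rw [Finset.mul_sum]
    rw [e2]
    have e3 : ∀ r ∈ R, (r.totient : ℝ) * ((∑ u ∈ R, (if r ∣ u then ρ u / u else 0)) *
          (∑ v ∈ R, (if r ∣ v then ρ v / v else 0))) = (1 / G ^ 2) * (1 / (r.totient : ℝ)) := by
      intro r hr
      rw [hinv r hr]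
      have h0 := htot r hr
      have hm : ((μ r : ℤ) : ℝ) ^ 2 = 1 := by
        exact_mod_cast moebius_sq_eq_one_of_squarefree (hsq r hr)
      have e4 : (r.totient : ℝ) * (((μ r : ℤ) : ℝ) / (G * r.totient) *
          (((μ r : ℤ) : ℝ) / (G * r.totient))) =
          ((μ r : ℤ) : ℝ) ^ 2 * ((1 / G ^ 2) * (1 / (r.totient : ℝ))) := by
        field_simp
      rw [e4, hm, one_mul]
    rw [Finset.sum_congr rfl e3, ← Finset.mul_sum, ← hG]
    field_simp
  refine ⟨ρ, hρ1, hρb, hρs, ?_, ?_⟩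
  · rw [hQF]; positivity
  · rw [hQF]
    have h2 := hGL z D hz hD.le
    rw [← hR, ← hG] at h2
    have hMe : 0 < Me z := by
      unfold Me
      refine Finset.prod_pos fun p hp => ?_
      have h3 : (2 : ℝ) ≤ p := by exact_mod_cast (Finset.mem_filter.1 hp).2.two_le
      have h4 : 1 / (p : ℝ) ≤ 1 / 2 := one_div_le_one_div_of_le (by norm_num) h3
      linarith
    have h3 := mul_le_mul_of_nonneg_left h2 hMe.le
    rw [← mul_assoc, mul_inv_cancel₀ hMe.ne', one_mul] at h3
    have h4 : Me z * (1 / G) * Real.log D = (Me z * Real.log D) / G := by ring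
    rw [h4, div_le_one hGpos]
    exact h3

end Pool.Agent.H67.MTP
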